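import Pool.Agent.Helper20.QD.St5

/-! MODULE WOU of project QD part B: the outside. -/

set_option autoImplicit false

open Filter Topology Matrix Set Metric
open scoped ComplexConjugate ComplexOrder

namespace Pool.Agent.Helper97.QD

open Pool.Agent.Helper35.PM Pool.Agent.Helper20.QD

/-- the swap -/
private noncomputable def JJ : SL := ⟨!![0, Complex.I; Complex.I, 0], by
  rw [Matrix.det_fin_two_of]; simp⟩

private theorem JJ_conj (A : SL) :
    ((JJ * A * JJ⁻¹ : SL) : Mat) 0 0 = (A : Mat) 1 1 ∧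
    ((JJ * A * JJ⁻¹ : SL) : Mat) 0 1 = (A : Mat) 1 0 ∧
    ((JJ * A * JJ⁻¹ : SL) : Mat) 1 0 = (A : Mat) 0 1 ∧
    ((JJ * A * JJ⁻¹ : SL) : Mat) 1 1 = (A : Mat) 0 0 := by
  have hJ : ((JJ : SL) : Mat) = !![0, Complex.I; Complex.I, 0] := rfl
  have hJi : ((JJ⁻¹ : SL) : Mat) = !![0, -Complex.I; -Complex.I, 0] := by
    rw [Matrix.SpecialLinearGroup.coe_inv, hJ, Matrix.adjugate_fin_two_of]
  have h : ((JJ * A * JJ⁻¹ : SL) : Mat) = !![(A : Mat) 1 1, (A : Mat) 1 0; (A : Mat) 0 1, (A : Mat) 0 0] := by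
    rw [Matrix.SpecialLinearGroup.coe_mul, Matrix.SpecialLinearGroup.coe_mul, hJ, hJi]
    conv_lhs => rw [Matrix.eta_fin_two (A : Mat)]
    rw [Matrix.mul_fin_two, Matrix.mul_fin_two]
    have hI := Complex.I_sq
    congr 1
    ext i j
    fin_cases i <;> fin_cases j <;> simp
    · linear_combination -((A : Mat) 1 1) * hI
    · linear_combination -((A : Mat) 1 0) * hI
    · linear_combination -((A : Mat) 0 1) * hI
    · linear_combination -((A : Mat) 0 0) * hI
  rw [h]
  exact ⟨rfl, rfl, rfl, rfl⟩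

private theorem mul_entries (A B : SL) :
    ((A * B : SL) : Mat) 0 0 = (A : Mat) 0 0 * (B : Mat) 0 0 + (A : Mat) 0 1 * (B : Mat) 1 0 ∧
    ((A * B : SL) : Mat) 0 1 = (A : Mat) 0 0 * (B : Mat) 0 1 + (A : Mat) 0 1 * (B : Mat) 1 1 ∧
    ((A * B : SL) : Mat) 1 0 = (A : Mat) 1 0 * (B : Mat) 0 0 + (A : Mat) 1 1 * (B : Mat) 1 0 ∧
    ((A * B : SL) : Mat) 1 1 = (A : Mat) 1 0 * (B : Mat) 0 1 + (A : Mat) 1 1 * (B : Mat) 1 1 := by
  rw [Matrix.SpecialLinearGroup.coe_mul]
  refine ⟨?_, ?_, ?_, ?_⟩ <;> rw [Matrix.mul_apply, Fin.sum_univ_two]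

/-- the representation on the other side -/
private noncomputable def flip {Γ : Type} [Group Γ] (σ : Γ →* SL) : Γ →* SL := cj JJ σ

private theorem flip_apply {Γ : Type} [Group Γ] (σ : Γ →* SL) (γ : Γ) :
    flip σ γ = JJ * σ γ * JJ⁻¹ := rfl

private theorem fuch_flip {Γ : Type} [Group Γ] (σ : Γ →* SL) (h : Fuch σ) : Fuch (flip σ) := by
  refine ⟨?_, ?_, ?_⟩
  · intro γ
    obtain ⟨e00, e01, e10, e11⟩ := JJ_conj (σ γ)
    obtain ⟨h1, h2⟩ := h.su γ
    unfold IsSU
    rw [flip_apply, e00, e01, e10, e11, h1, h2]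
    simp
  · intro X
    have : {γ : Γ | hs (flip σ γ) ≤ X} = {γ : Γ | hs (σ γ) ≤ X} := by
      ext γ
      obtain ⟨e00, e01, e10, e11⟩ := JJ_conj (σ γ)
      have e : hs (flip σ γ : Mat) = hs (σ γ : Mat) := by
        unfold hs
        simp only [Fin.sum_univ_two]
        rw [flip_apply, e00, e01, e10, e11]
        ring
      simp only [mem_ofPred_eq, e]
    rw [this]
    exact h.discrete X
  · obtain ⟨r, hr, hc⟩ := h.cocompact
    refine ⟨r, hr, ?_⟩
    intro z hz
    have hz' : conj z ∈ D := by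
      rw [mem_ball_zero_iff] at hz ⊢
      rwa [Complex.norm_conj]
    obtain ⟨γ, hγ⟩ := hc (conj z) hz'
    refine ⟨γ, ?_⟩
    obtain ⟨e00, e01, e10, e11⟩ := JJ_conj (σ γ)
    obtain ⟨h1, h2⟩ := h.su γ
    have e : mob (flip σ γ) z = conj (mob (σ γ) (conj z)) := by
      unfold mob
      rw [flip_apply, e00, e01, e10, e11, h1, h2]
      simp only [map_div₀, map_add, map_mul, Complex.conj_conj]
    rw [e, Complex.norm_conj]
    exact hγ

private theorem asym (f : ℂ → ℂ) (hf : DifferentiableOn ℂ f D) (h0 : f 0 = 0)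
    (hd : deriv f 0 ≠ 0) (p : ℂ) : ∃ a c : ℂ, a ≠ 0 ∧
    Tendsto (fun z : ℂ => (p + 1 / f (1 / z)) - a * z - c) (Bornology.cobounded ℂ) (𝓝 0) := by
  have hD : D ∈ 𝓝 (0 : ℂ) := ball_mem_nhds 0 one_pos
  have h1 : DifferentiableOn ℂ (dslope f 0) D := (Complex.differentiableOn_dslope hD).2 hf
  have h2 : DifferentiableAt ℂ (dslope f 0) 0 := h1.differentiableAt hD
  have h3 : dslope f 0 0 = deriv f 0 := dslope_same f 0
  have h4 : DifferentiableAt ℂ (fun w => (dslope f 0 w)⁻¹) 0 := h2.inv (by rwa [h3])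
  set k : ℂ → ℂ := fun w => (dslope f 0 w)⁻¹ with hk
  have h5 := h4.hasDerivAt.tendsto_slope
  refine ⟨(deriv f 0)⁻¹, p + deriv k 0, inv_ne_zero hd, ?_⟩
  have h6 : Tendsto (fun z : ℂ => slope k 0 z⁻¹ - deriv k 0) (Bornology.cobounded ℂ) (𝓝 0) := by
    have h7 := (h5.comp tendsto_inv₀_cobounded').sub_const (deriv k 0)
    rw [sub_self] at h7
    exact h7
  refine h6.congr' ?_
  have h8 : ∀ᶠ z : ℂ in Bornology.cobounded ℂ, z ≠ 0 := by
    filter_upwards [eventually_cobounded_le_norm (E := ℂ) 1] with z hz hz0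
    rw [hz0, norm_zero] at hz
    linarith
  filter_upwards [h8] with z hz
  have hzi : z⁻¹ ≠ 0 := inv_ne_zero hz
  have e1 : k z⁻¹ = z⁻¹ / f z⁻¹ := by
    rw [hk]
    simp only
    rw [dslope_of_ne f hzi, slope_def_field, h0, sub_zero, sub_zero, inv_div]
  have e2 : k 0 = (deriv f 0)⁻¹ := by
    rw [hk]
    simp only
    rw [h3]
  rw [slope_def_field, e1, e2, sub_zero, one_div z, div_inv_eq_mul]
  field_simp
  ring

theorem hWOU (hTJ1 : StTJ1) (hSUB : StSUB) (hRIJ : StRIJ) (hWIN : StWIN) (hSID : StSID) :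
    StWOU := by
  intro Γ _ ρ hρ
  obtain ⟨β, hβ⟩ := hρ.jordan
  obtain ⟨⟨p, hp⟩, -⟩ := hTJ1 β (Lam ρ) hβ
  obtain ⟨B, hden, hmob, hG', hLam, hinn⟩ := hWIN Γ ρ p hρ hp
  have h0inn : (0 : ℂ) ∈ inn (Lam (cj B ρ)) := by
    rw [hinn]; exact Or.inl rfl
  obtain ⟨σ', f, hone, hf0⟩ := hSID Γ (cj B ρ) hG' 0 h0inn
  obtain ⟨hSU1, -, -, hmul, -, -⟩ := hSUB
  have hDopen : IsOpen D := isOpen_ball
  have h0D : (0 : ℂ) ∈ D := mem_ball_self one_pos
  have hDDD : D ⊆ DD := ball_subset_closedBall
  have hpL : p ∉ Lam ρ := hp.1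
  have hpo : p ∉ out (Lam ρ) := fun h => hp.2 h.2
  -- zeros of `f`
  have hfne : ∀ w ∈ DD, w ≠ 0 → f w ≠ 0 := by
    intro w hw hw0 hfw
    rw [mem_closedBall_zero_iff] at hw
    rcases lt_or_eq_of_le hw with h | h
    · have hwD : w ∈ D := by rwa [mem_ball_zero_iff]
      exact hw0 (hone.bij.injOn hwD h0D (by rw [hfw, hf0]))
    · have hwS : w ∈ SS := by rwa [mem_sphere_zero_iff_norm]
      have h1 := hone.bijS.mapsTo hwS
      rw [hfw] at h1
      exact h0inn.1 h1
  have hdf : deriv f 0 ≠ 0 := (hRIJ D f hDopen hone.hol hone.bij.injOn).1 0 h0D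
  set F : ℂ → ℂ := fun z => p + 1 / f (1 / z) with hF
  -- the inversion on the closed exterior
  have hz0 : ∀ z : ℂ, 1 ≤ ‖z‖ → z ≠ 0 := by
    intro z hz h
    rw [h, norm_zero] at hz
    linarith
  have hinvDD : ∀ z : ℂ, 1 ≤ ‖z‖ → 1 / z ∈ DD := by
    intro z hz
    rw [mem_closedBall_zero_iff, norm_div, norm_one]
    rw [div_le_one (by linarith)]
    exact hz
  have hinvD : ∀ z : ℂ, 1 < ‖z‖ → 1 / z ∈ D := by
    intro z hz
    rw [mem_ball_zero_iff, norm_div, norm_one]
    rw [div_lt_one (by linarith)]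
    exact hz
  have hfz : ∀ z : ℂ, 1 ≤ ‖z‖ → f (1 / z) ≠ 0 := fun z hz =>
    hfne _ (hinvDD z hz) (one_div_ne_zero (hz0 z hz))
  -- from the image of `f` to the image of `F`
  have hFimg : ∀ (u w : ℂ), u ≠ p → f w = 1 / (u - p) → p + 1 / f w = u := by
    intro u w hu h
    have : u - p ≠ 0 := sub_ne_zero.2 hu
    rw [h]
    field_simp
    ring
  refine ⟨flip σ', F, ?_, ?_, ?_, ?_, ?_, fuch_flip σ' hone.fuch, ?_⟩
  · -- continuity
    apply ContinuousOn.add continuousOn_const
    apply ContinuousOn.div continuousOn_const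
    · apply hone.cont.comp
      · exact continuousOn_const.div continuousOn_id (fun z hz => hz0 z hz)
      · intro z hz
        exact hinvDD z hz
    · intro z hz
      exact hfz z hz
  · -- holomorphy
    apply DifferentiableOn.add (differentiableOn_const _)
    apply DifferentiableOn.div (differentiableOn_const _)
    · apply hone.hol.comp
      · exact (differentiableOn_const _).div differentiableOn_id
          (fun z hz => hz0 z (le_of_lt hz))
      · intro z hz
        exact hinvD z hz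
    · intro z hz
      exact hfz z (le_of_lt hz)
  · -- outside
    refine ⟨?_, ?_, ?_⟩
    · intro z hz
      have h1 := hone.bij.mapsTo (hinvD z hz)
      rw [hinn] at h1
      rcases h1 with h1 | ⟨u, hu, h1⟩
      · exact absurd h1 (hfz z (le_of_lt hz))
      · have hup : u ≠ p := fun h => hpo (h ▸ hu)
        have e := hFimg u (1 / z) hup h1.symm
        show p + 1 / f (1 / z) ∈ out (Lam ρ)
        rw [e]
        exact hu
    · intro z₁ hz₁ z₂ hz₂ h
      have h1 : p + 1 / f (1 / z₁) = p + 1 / f (1 / z₂) := h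
      have h2 : 1 / f (1 / z₁) = 1 / f (1 / z₂) := add_left_cancel h1
      have h3 : f (1 / z₁) = f (1 / z₂) := by
        have h5 := congrArg (fun t => 1 / t) h2
        simpa using h5
      have h4 := hone.bij.injOn (hinvD z₁ hz₁) (hinvD z₂ hz₂) h3
      rw [one_div, one_div] at h4
      exact inv_injective h4
    · intro u hu
      have hup : u ≠ p := fun h => hpo (h ▸ hu)
      have h1 : 1 / (u - p) ∈ inn (Lam (cj B ρ)) := by
        rw [hinn]
        exact Or.inr ⟨u, hu, rfl⟩
      obtain ⟨w, hw, hfw⟩ := hone.bij.surjOn h1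
      have hw0 : w ≠ 0 := by
        rintro rfl
        rw [hf0] at hfw
        have : 1 / (u - p) ≠ 0 := one_div_ne_zero (sub_ne_zero.2 hup)
        exact this hfw.symm
      refine ⟨1 / w, ?_, ?_⟩
      · have h2 : ‖w‖ < 1 := by rwa [mem_ball_zero_iff] at hw
        have h3 : 0 < ‖w‖ := norm_pos_iff.2 hw0
        show 1 < ‖1 / w‖
        rw [norm_div, norm_one, one_lt_div h3]
        exact h2
      · show p + 1 / f (1 / (1 / w)) = u
        rw [one_div_one_div]
        exact hFimg u w hup hfw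
  · -- circle
    refine ⟨?_, ?_, ?_⟩
    · intro z hz
      have hzn : ‖z‖ = 1 := by rwa [mem_sphere_zero_iff_norm] at hz
      have hS : 1 / z ∈ SS := by
        rw [mem_sphere_zero_iff_norm, norm_div, norm_one, hzn, div_one]
      have h1 := hone.bijS.mapsTo hS
      rw [hLam] at h1
      obtain ⟨u, hu, h1⟩ := h1
      have hup : u ≠ p := fun h => hpL (h ▸ hu)
      have e := hFimg u (1 / z) hup h1.symm
      show p + 1 / f (1 / z) ∈ Lam ρ
      rw [e]
      exact hu
    · intro z₁ hz₁ z₂ hz₂ h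
      have hS : ∀ z ∈ SS, 1 / z ∈ SS := by
        intro z hz
        have hzn : ‖z‖ = 1 := by rwa [mem_sphere_zero_iff_norm] at hz
        rw [mem_sphere_zero_iff_norm, norm_div, norm_one, hzn, div_one]
      have h1 : p + 1 / f (1 / z₁) = p + 1 / f (1 / z₂) := h
      have h2 : 1 / f (1 / z₁) = 1 / f (1 / z₂) := add_left_cancel h1
      have h3 : f (1 / z₁) = f (1 / z₂) := by
        have h5 := congrArg (fun t => 1 / t) h2
        simpa using h5
      have h4 := hone.bijS.injOn (hS z₁ hz₁) (hS z₂ hz₂) h3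
      rw [one_div, one_div] at h4
      exact inv_injective h4
    · intro u hu
      have hup : u ≠ p := fun h => hpL (h ▸ hu)
      have h1 : 1 / (u - p) ∈ Lam (cj B ρ) := by
        rw [hLam]
        exact ⟨u, hu, rfl⟩
      obtain ⟨w, hw, hfw⟩ := hone.bijS.surjOn h1
      have hwn : ‖w‖ = 1 := by rwa [mem_sphere_zero_iff_norm] at hw
      refine ⟨1 / w, ?_, ?_⟩
      · rw [mem_sphere_zero_iff_norm, norm_div, norm_one, hwn, div_one]
      · show p + 1 / f (1 / (1 / w)) = u
        rw [one_div_one_div]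
        exact hFimg u w hup hfw
  · exact asym f hone.hol hf0 hdf p
  · -- equivariance
    intro γ z hz
    have hz' := hz0 z hz
    set w : ℂ := 1 / z with hw
    have hwDD : w ∈ DD := hinvDD z hz
    have hwz : w * z = 1 := by rw [hw]; field_simp
    have hfw : f w ≠ 0 := hfz z hz
    obtain ⟨-, hdenA, hbD, hbS, -⟩ := hSU1 (σ' γ) (hone.fuch.su γ)
    have hd' : den (σ' γ) w ≠ 0 := hdenA w hwDD
    set u : ℂ := mob (σ' γ) w with hu
    have huDD : u ∈ DD := by
      rw [mem_closedBall_zero_iff] at hwDD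
      rcases lt_or_eq_of_le hwDD with h | h
      · exact hDDD (hbD.mapsTo (by rwa [mem_ball_zero_iff]))
      · exact sphere_subset_closedBall (hbS.mapsTo (by rwa [mem_sphere_zero_iff_norm]))
    have hnum : ((σ' γ : SL) : Mat) 0 0 * w + ((σ' γ : SL) : Mat) 0 1 = u * den (σ' γ) w := by
      rw [hu]
      exact (div_mul_cancel₀ _ hd').symm
    obtain ⟨e00, e01, e10, e11⟩ := JJ_conj (σ' γ)
    have hdz : den (flip σ' γ) z = z * (u * den (σ' γ) w) := by
      rw [← hnum]
      unfold den
      rw [flip_apply, e10, e11]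
      linear_combination -((σ' γ : SL) : Mat) 0 0 * hwz
    have hnz : ((flip σ' γ : SL) : Mat) 0 0 * z + ((flip σ' γ : SL) : Mat) 0 1 =
        z * den (σ' γ) w := by
      unfold den
      rw [flip_apply, e00, e01]
      linear_combination -((σ' γ : SL) : Mat) 1 0 * hwz
    have hu0 : den (flip σ' γ) z = 0 ↔ u = 0 := by
      rw [hdz]
      constructor
      · intro h
        rcases mul_eq_zero.1 h with h | h
        · exact absurd h hz'
        · rcases mul_eq_zero.1 h with h | h
          · exact h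
          · exact absurd h hd'
      · intro h
        rw [h, zero_mul, mul_zero]
    have hmu : u ≠ 0 → mob (flip σ' γ) z = 1 / u := by
      intro h
      have e : mob (flip σ' γ) z = (((flip σ' γ : SL) : Mat) 0 0 * z +
        ((flip σ' γ : SL) : Mat) 0 1) / den (flip σ' γ) z := rfl
      rw [e, hnz, hdz]
      field_simp
    -- the other side
    set x : ℂ := F z with hx
    have hxp : x - p = 1 / f w := by
      rw [hx, hF]
      simp only
      rw [← hw]
      ring
    have hxp0 : x - p ≠ 0 := by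
      rw [hxp]
      exact one_div_ne_zero hfw
    have hxne : x ≠ p := sub_ne_zero.1 hxp0
    have hmx : mob B x = f w := by
      rw [hmob x hxne, hxp, one_div_one_div]
    have hdx : den B x ≠ 0 := by
      rw [hden]
      exact mul_ne_zero Complex.I_ne_zero hxp0
    obtain ⟨hdr, hfu⟩ := hone.eqv γ w hwDD
    have hcj : cj B ρ γ * B = B * ρ γ := by
      show B * ρ γ * B⁻¹ * B = B * ρ γ
      rw [inv_mul_cancel_right]
    obtain ⟨m1, m2⟩ := hmul (cj B ρ γ) B x hdx
    rw [hmx] at m1 m2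
    rw [← hfu] at m1
    rw [hcj] at m1 m2
    have hdBA : den (B * ρ γ) x ≠ 0 := by
      rw [m2]
      exact mul_ne_zero hdr hdx
    -- entries of `B`
    have b10 : (B : Mat) 1 0 = Complex.I := by
      have h1 := hden 0
      have h2 := hden 1
      unfold den at h1 h2
      linear_combination h2 - h1
    have b11 : (B : Mat) 1 1 = -(Complex.I * p) := by
      have h1 := hden 0
      unfold den at h1
      linear_combination h1
    have bnum : ∀ y : ℂ, y ≠ p → (B : Mat) 0 0 * y + (B : Mat) 0 1 = Complex.I := by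
      intro y hy
      have h1 := hmob y hy
      have h2 := hden y
      have h3 : y - p ≠ 0 := sub_ne_zero.2 hy
      unfold mob at h1
      unfold den at h2
      rw [h2, div_eq_div_iff (mul_ne_zero Complex.I_ne_zero h3) h3] at h1
      have h4 : ((B : Mat) 0 0 * y + (B : Mat) 0 1) * (y - p) = Complex.I * (y - p) := by
        linear_combination h1
      exact mul_right_cancel₀ h3 h4
    have b00 : (B : Mat) 0 0 = 0 := by
      have h1 := bnum (p + 1) (by simp)
      have h2 := bnum (p + 2) (by simp)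
      linear_combination h2 - h1
    have b01 : (B : Mat) 0 1 = Complex.I := by
      have h1 := bnum (p + 1) (by simp)
      rw [b00] at h1
      linear_combination h1
    obtain ⟨p00, p01, p10, p11⟩ := mul_entries B (ρ γ)
    set nA : ℂ := ((ρ γ : SL) : Mat) 0 0 * x + ((ρ γ : SL) : Mat) 0 1 with hnA
    have hdA : den (ρ γ) x = ((ρ γ : SL) : Mat) 1 0 * x + ((ρ γ : SL) : Mat) 1 1 := rfl
    have q1 : den (B * ρ γ) x = Complex.I * (nA - p * den (ρ γ) x) := by
      unfold den
      rw [p10, p11, b10, b11, hnA]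
      ring
    have q2 : ((B * ρ γ : SL) : Mat) 0 0 * x + ((B * ρ γ : SL) : Mat) 0 1 =
        Complex.I * den (ρ γ) x := by
      unfold den
      rw [p00, p01, b00, b01]
      ring
    have hq0 : nA - p * den (ρ γ) x ≠ 0 := by
      intro h
      apply hdBA
      rw [q1, h, mul_zero]
    have hfu' : f u = den (ρ γ) x / (nA - p * den (ρ γ) x) := by
      have e : mob (B * ρ γ) x = (((B * ρ γ : SL) : Mat) 0 0 * x +
        ((B * ρ γ : SL) : Mat) 0 1) / den (B * ρ γ) x := rfl
      rw [m1.symm, e, q1, q2]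
      have := Complex.I_ne_zero
      field_simp
    have hfu0 : f u = 0 ↔ u = 0 := by
      constructor
      · intro h
        by_contra hne
        exact hfne u huDD hne h
      · intro h
        rw [h, hf0]
    have hda0 : f u = 0 ↔ den (ρ γ) x = 0 := by
      rw [hfu', div_eq_zero_iff]
      constructor
      · rintro (h | h)
        · exact h
        · exact absurd h hq0
      · exact fun h => Or.inl h
    refine ⟨?_, ?_⟩
    · rw [hu0, ← hfu0, hda0]
    · intro hne
      have hune : u ≠ 0 := fun h => hne (hu0.2 h)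
      have hdA0 : den (ρ γ) x ≠ 0 := fun h => hune (hfu0.1 (hda0.2 h))
      rw [hmu hune]
      refine ⟨?_, ?_⟩
      · rw [norm_div, norm_one, one_le_div (norm_pos_iff.2 hune)]
        rwa [mem_closedBall_zero_iff] at huDD
      · show p + 1 / f (1 / (1 / u)) = mob (ρ γ) x
        rw [one_div_one_div, hfu']
        have e : mob (ρ γ) x = nA / den (ρ γ) x := rfl
        rw [e]
        field_simp
        ring

end Pool.Agent.Helper97.QD
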